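import Pool.Agent.H466.HD.SA

/-!
# Project HD (helper466): the product of a piece of zeta and the mollifier
-/

set_option autoImplicit false

namespace Pool.Agent.H249.HD

open Complex MeasureTheory Set Filter Topology
open Pool.Agent.H448R2.GC (cu fs cu_nonneg cu_le_one cu_zero)
open Pool.Agent.H477.E (MT bc Nn)
open Pool.Agent.H466.HD

noncomputable section

/-- the mollifier as a Dirichlet polynomial -/
lemma Mt_eq (θ T y : ℝ) :
    Mt θ T y = ∑ n ∈ Finset.Icc 1 (Nn θ (Real.log T)),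
      bc θ (Real.log T) 0 n * (n : ℂ) ^ (-(1 / 2 + (y : ℂ) * I)) := by
  unfold Mt MT fs Nn bc
  refine Finset.sum_congr rfl fun n _ => ?_
  rw [neg_zero, Complex.cpow_zero, mul_one]

/-- the coefficients vanish beyond the length -/
lemma bc_zero {θ L : ℝ} (hθ : 0 < θ) (hL : 0 < L) {n : ℕ} (hn : Nn θ L < n) : bc θ L 0 n = 0 := by
  unfold Pool.Agent.H477.E.bc
  have h1 : Real.exp (θ * L + (5 : ℕ) * (θ * L / 5)) < n := (Nat.floor_lt (Real.exp_pos _).le).1 hn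
  have h2 : θ * L + (5 : ℕ) * (θ * L / 5) < Real.log n := by
    rw [Real.lt_log_iff_exp_lt (lt_trans (Real.exp_pos _) h1)]
    exact h1
  rw [cu_zero 5 _ _ (by positivity) (by linarith)]
  simp

/-- the coefficients are bounded by one -/
lemma bc_norm {θ L : ℝ} (hθ : 0 < θ) (hL : 0 < L) (n : ℕ) : ‖bc θ L 0 n‖ ≤ 1 := by
  unfold Pool.Agent.H477.E.bc
  rw [neg_zero, Complex.cpow_zero, mul_one, norm_mul]
  have hc : 0 < θ * L / 5 := by positivity
  have h1 : ‖(((ArithmeticFunction.moebius n : ℤ) : ℂ))‖ ≤ 1 := by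
    rw [Complex.norm_intCast]
    exact_mod_cast ArithmeticFunction.abs_moebius_le_one
  have h2 : ‖(cu 5 (θ * L / 5) (Real.log n - θ * L) : ℂ)‖ ≤ 1 := by
    rw [Complex.norm_real, Real.norm_of_nonneg (cu_nonneg _ _ _ hc)]
    exact cu_le_one _ _ _ hc
  exact mul_le_one₀ h1 (norm_nonneg _) h2

/-- the bump vanishes beyond the band -/
lemma be_zero {β : ℝ → ℝ} {k : ℝ → ℂ} {C : ℝ} (hB : Bump β k C) {c w : ℝ} (hw : 0 < w) {n : ℕ}
    (hn : ⌊Real.exp (c + w)⌋₊ < n) : β ((Real.log n - c) / w) = 0 := by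
  have h1 : Real.exp (c + w) < n := (Nat.floor_lt (Real.exp_pos _).le).1 hn
  have h2 : c + w < Real.log n := by
    rw [Real.lt_log_iff_exp_lt (lt_trans (Real.exp_pos _) h1)]
    exact h1
  apply hB.supp
  rw [le_abs]
  left
  rw [le_div_iff₀ hw]
  linarith

/-- one term of the coefficient -/
lemma term_zero {β : ℝ → ℝ} {k : ℝ → ℂ} {C : ℝ} (hB : Bump β k C) {c w θ L : ℝ} (hw : 0 < w)
    (hθ : 0 < θ) (hL : 0 < L) {j m : ℕ} (hm : m ∈ j.divisors)
    (h : ¬ (m ≤ Nn θ L ∧ j / m ≤ ⌊Real.exp (c + w)⌋₊)) :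
    bc θ L 0 m * (β ((Real.log ((j : ℝ) / (m : ℝ)) - c) / w) : ℂ) = 0 := by
  rw [not_and_or, not_le, not_le] at h
  rcases h with h | h
  · rw [bc_zero hθ hL h, zero_mul]
  · have hdvd := (Nat.mem_divisors.1 hm).1
    have e : ((j : ℝ) / (m : ℝ)) = ((j / m : ℕ) : ℝ) := (Nat.cast_div_charZero hdvd).symm
    rw [e, be_zero hB hw h, Complex.ofReal_zero, mul_zero]

lemma cf_zero {β : ℝ → ℝ} {k : ℝ → ℂ} {C : ℝ} (hB : Bump β k C) {c w θ L : ℝ} (hw : 0 < w)
    (hθ : 0 < θ) (hL : 0 < L) {j : ℕ} (hj : ⌊Real.exp (c + w)⌋₊ * Nn θ L < j) :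
    cf θ L β c w j = 0 := by
  unfold cf
  apply Finset.sum_eq_zero
  intro m hm
  apply term_zero hB hw hθ hL hm
  rintro ⟨h1, h2⟩
  have hdvd := (Nat.mem_divisors.1 hm).1
  have h3 : j / m * m = j := Nat.div_mul_cancel hdvd
  have h4 : j / m * m ≤ ⌊Real.exp (c + w)⌋₊ * Nn θ L := Nat.mul_le_mul h2 h1
  omega

/-- the product is a Dirichlet polynomial with the coefficients `cf` -/
lemma prod_eq {β : ℝ → ℝ} {k : ℝ → ℂ} {C : ℝ} (hB : Bump β k C) {c w θ T : ℝ} (hw : 0 < w)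
    (hθ : 0 < θ) (hL : 0 < Real.log T) (y : ℝ) :
    Dn β c w y * Mt θ T y = ∑ j ∈ Finset.Icc 1 (⌊Real.exp (c + w)⌋₊ * Nn θ (Real.log T)),
      cf θ (Real.log T) β c w j * (j : ℂ) ^ (-(1 / 2 + (y : ℂ) * I)) := by
  set L := Real.log T with hLd
  set Nd := ⌊Real.exp (c + w)⌋₊ with hNd
  set s : ℂ := 1 / 2 + (y : ℂ) * I with hs
  rw [Mt_eq]
  unfold Dn
  rw [Finset.sum_mul_sum, ← Finset.sum_product']
  rw [← Finset.sum_fiberwise_of_maps_to (s := Finset.Icc 1 Nd ×ˢ Finset.Icc 1 (Nn θ L))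
    (t := Finset.Icc 1 (Nd * Nn θ L)) (g := fun x : ℕ × ℕ => x.1 * x.2)]
  · refine Finset.sum_congr rfl fun j hj => ?_
    have hj1 : 1 ≤ j := (Finset.mem_Icc.1 hj).1
    unfold cf
    rw [Finset.sum_mul]
    have e1 : ∑ m ∈ j.divisors, bc θ L 0 m * (β ((Real.log ((j : ℝ) / (m : ℝ)) - c) / w) : ℂ) *
        (j : ℂ) ^ (-s) = ∑ m ∈ j.divisors.filter (fun m => m ≤ Nn θ L ∧ j / m ≤ Nd),
        bc θ L 0 m * (β ((Real.log ((j : ℝ) / (m : ℝ)) - c) / w) : ℂ) * (j : ℂ) ^ (-s) := by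
      rw [Finset.sum_filter]
      refine Finset.sum_congr rfl fun m hm => ?_
      split_ifs with h
      · rfl
      · rw [term_zero hB hw hθ hL hm h, zero_mul]
    rw [e1]
    refine Finset.sum_nbij' (fun x => x.2) (fun m => (j / m, m)) ?_ ?_ ?_ ?_ ?_
    · rintro ⟨n, m⟩ hx
      simp only [Finset.mem_filter, Finset.mem_product, Finset.mem_Icc, Nat.mem_divisors] at hx ⊢
      obtain ⟨⟨⟨hn1, hn2⟩, hm1, hm2⟩, hnm⟩ := hx
      refine ⟨⟨⟨n, by rw [← hnm, mul_comm]⟩, by omega⟩, hm2, ?_⟩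
      rw [← hnm, Nat.mul_div_cancel _ (by omega)]
      exact hn2
    · intro m hm
      simp only [Finset.mem_filter, Finset.mem_product, Finset.mem_Icc, Nat.mem_divisors] at hm ⊢
      obtain ⟨⟨hdvd, hj0⟩, hm1, hm2⟩ := hm
      have hmp : 0 < m := Nat.pos_of_dvd_of_pos hdvd (by omega)
      exact ⟨⟨⟨Nat.div_pos (Nat.le_of_dvd (by omega) hdvd) hmp, hm2⟩, hmp, hm1⟩,
        Nat.div_mul_cancel hdvd⟩
    · rintro ⟨n, m⟩ hx
      simp only [Finset.mem_filter, Finset.mem_product, Finset.mem_Icc] at hx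
      obtain ⟨⟨⟨hn1, hn2⟩, hm1, hm2⟩, hnm⟩ := hx
      have : j / m = n := by rw [← hnm, Nat.mul_div_cancel _ (by omega)]
      rw [this]
    · intro m _
      rfl
    · rintro ⟨n, m⟩ hx
      simp only [Finset.mem_filter, Finset.mem_product, Finset.mem_Icc] at hx
      obtain ⟨⟨⟨hn1, hn2⟩, hm1, hm2⟩, hnm⟩ := hx
      have hm0 : (m : ℝ) ≠ 0 := by
        have : m ≠ 0 := by omega
        exact_mod_cast this
      have e2 : (j : ℝ) / (m : ℝ) = n := by
        rw [← hnm]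
        push_cast
        field_simp
      have e3 : (j : ℂ) ^ (-s) = (n : ℂ) ^ (-s) * (m : ℂ) ^ (-s) := by
        rw [← hnm]
        push_cast
        exact Complex.natCast_mul_natCast_cpow n m (-s)
      show (β ((Real.log n - c) / w) : ℂ) * (n : ℂ) ^ (-s) * (bc θ L 0 m * (m : ℂ) ^ (-s)) = _
      rw [e2, e3]
      ring
  · rintro ⟨n, m⟩ hx
    simp only [Finset.mem_product, Finset.mem_Icc] at hx ⊢
    obtain ⟨⟨hn1, hn2⟩, hm1, hm2⟩ := hx
    exact ⟨Nat.mul_pos hn1 hm1, Nat.mul_le_mul hn2 hm2⟩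

lemma norm_cpow_half {n : ℕ} (hn : 1 ≤ n) (y : ℝ) :
    ‖(n : ℂ) ^ (-(1 / 2 + (y : ℂ) * I))‖ ≤ 1 := by
  rw [Complex.norm_natCast_cpow_of_pos (by omega)]
  apply Real.rpow_le_one_of_one_le_of_nonpos
  · exact_mod_cast hn
  · simp

/-- crude bound of the mollifier -/
lemma Mt_norm {θ T y : ℝ} (hθ : 0 < θ) (hL : 0 < Real.log T) :
    ‖Mt θ T y‖ ≤ Real.exp (2 * θ * Real.log T) := by
  rw [Mt_eq]
  refine (norm_sum_le _ _).trans ?_
  have h1 : ∀ n ∈ Finset.Icc 1 (Nn θ (Real.log T)),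
      ‖bc θ (Real.log T) 0 n * (n : ℂ) ^ (-(1 / 2 + (y : ℂ) * I))‖ ≤ 1 := by
    intro n hn
    rw [norm_mul]
    exact mul_le_one₀ (bc_norm hθ hL n) (norm_nonneg _) (norm_cpow_half (Finset.mem_Icc.1 hn).1 y)
  refine (Finset.sum_le_sum h1).trans ?_
  simp only [Finset.sum_const, Nat.card_Icc, nsmul_eq_mul, Nat.add_sub_cancel, mul_one]
  unfold Nn
  refine (Nat.floor_le (Real.exp_pos _).le).trans ?_
  apply Real.exp_le_exp.2
  push_cast
  linarith

lemma Mt_cont (θ T : ℝ) : Continuous (fun y => Mt θ T y) := by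
  have e : (fun y => Mt θ T y) = fun y : ℝ => ∑ n ∈ Finset.Icc 1 (Nn θ (Real.log T)),
      bc θ (Real.log T) 0 n * (n : ℂ) ^ (-(1 / 2 + (y : ℂ) * I)) := funext fun y => Mt_eq θ T y
  rw [e]
  apply continuous_finsetSum
  intro n hn
  apply Continuous.mul continuous_const
  apply Continuous.const_cpow
  · fun_prop
  · left
    have : n ≠ 0 := by
      have := (Finset.mem_Icc.1 hn).1
      omega
    exact_mod_cast this

lemma Dn_cont (β : ℝ → ℝ) (c w : ℝ) : Continuous (fun y => Dn β c w y) := by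
  unfold Dn
  apply continuous_finsetSum
  intro n hn
  apply Continuous.mul continuous_const
  apply Continuous.const_cpow
  · fun_prop
  · left
    have : n ≠ 0 := by
      have := (Finset.mem_Icc.1 hn).1
      omega
    exact_mod_cast this

/-- continuity of the contribution of the pole -/
lemma Rn_cont {β : ℝ → ℝ} {k : ℝ → ℂ} {C : ℝ} (hB : Bump β k C) (c w : ℝ) :
    Continuous (fun y => Rn β c w y) := by
  unfold Rn
  apply Continuous.mul continuous_const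
  have e : ∀ y : ℝ, ∫ x : ℝ, (β x : ℂ) * cexp ((c + w * x) * (1 / 2 - (y : ℂ) * I)) =
      ∫ x in Icc (-1 : ℝ) 1, (β x : ℂ) * cexp ((c + w * x) * (1 / 2 - (y : ℂ) * I)) := by
    intro y
    symm
    apply setIntegral_eq_integral_of_forall_compl_eq_zero
    intro x hx
    have : β x = 0 := by
      apply hB.supp
      by_contra hcon
      push Not at hcon
      apply hx
      rw [abs_lt] at hcon
      exact ⟨hcon.1.le, hcon.2.le⟩
    rw [this, Complex.ofReal_zero, zero_mul]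
  simp_rw [e]
  apply continuous_parametric_integral_of_continuous _ isCompact_Icc
  have hβ := hB.cont
  show Continuous (fun p : ℝ × ℝ => (β p.2 : ℂ) * cexp ((c + w * p.2) * (1 / 2 - (p.1 : ℂ) * I)))
  fun_prop

/-- the contribution of the pole is small -/
lemma Rn_norm {β : ℝ → ℝ} {k : ℝ → ℂ} {C : ℝ} (hB : Bump β k C) {c w y Y : ℝ} (hw : 1 ≤ w)
    (hY : 1 ≤ Y) (hy : Y ≤ y) :
    ‖Rn β c w y‖ ≤ C * Real.exp ((c + w) / 2) / Y ^ 10 := by
  have hC := hB.Cp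
  set z : ℂ := (w : ℂ) * (1 / 2 - (y : ℂ) * I) with hz
  have e : Rn β c w y = w * (cexp ((c : ℂ) * (1 / 2 - (y : ℂ) * I)) *
      ∫ x : ℝ, (β x : ℂ) * cexp (x * z)) := by
    unfold Rn
    congr 1
    rw [← integral_const_mul]
    congr 1
    funext x
    have e1 : ((c : ℂ) + w * x) * (1 / 2 - (y : ℂ) * I) = (c : ℂ) * (1 / 2 - (y : ℂ) * I) + x * z := by
      rw [hz]
      ring
    rw [e1, Complex.exp_add]
    ring
  have hzre : z.re = w / 2 := by
    rw [hz]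
    simp
    ring
  have hzim : z.im = -(w * y) := by
    rw [hz]
    simp
  have hzn : w * Y ≤ ‖z‖ := by
    have h1 := Complex.abs_im_le_norm z
    rw [hzim, abs_neg] at h1
    have h2 : 0 ≤ w * y := by nlinarith
    rw [abs_of_nonneg h2] at h1
    have h3 : w * Y ≤ w * y := mul_le_mul_of_nonneg_left hy (by linarith)
    linarith
  have h1 := hB.lap z
  rw [hzre, abs_of_nonneg (by linarith : 0 ≤ w / 2)] at h1
  have h2 : ‖cexp ((c : ℂ) * (1 / 2 - (y : ℂ) * I))‖ = Real.exp (c / 2) := by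
    rw [Complex.norm_exp]
    congr 1
    simp
    ring
  rw [e, norm_mul, norm_mul, h2, Complex.norm_real, Real.norm_of_nonneg (by linarith)]
  have hwY : 1 ≤ w * Y := by nlinarith
  have h3 : w * Y ^ 10 ≤ (1 + ‖z‖) ^ 10 := by
    calc w * Y ^ 10 ≤ w ^ 10 * Y ^ 10 := by
          apply mul_le_mul_of_nonneg_right (le_self_pow₀ hw (by norm_num)) (by positivity)
      _ = (w * Y) ^ 10 := by rw [mul_pow]
      _ ≤ (1 + ‖z‖) ^ 10 := pow_le_pow_left₀ (by linarith) (by linarith) 10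
  have hw0 : 0 < w := by linarith
  have hY0 : 0 < Y := by linarith
  calc w * (Real.exp (c / 2) * ‖∫ x : ℝ, (β x : ℂ) * cexp (x * z)‖)
      ≤ w * (Real.exp (c / 2) * (C * Real.exp (w / 2) / (1 + ‖z‖) ^ 10)) := by
        apply mul_le_mul_of_nonneg_left _ hw0.le
        apply mul_le_mul_of_nonneg_left h1 (Real.exp_pos _).le
    _ ≤ w * (Real.exp (c / 2) * (C * Real.exp (w / 2) / (w * Y ^ 10))) := by
        apply mul_le_mul_of_nonneg_left _ hw0.le
        apply mul_le_mul_of_nonneg_left _ (Real.exp_pos _).le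
        apply div_le_div_of_nonneg_left (by positivity) (by positivity) h3
    _ = C * (Real.exp (c / 2) * Real.exp (w / 2)) / Y ^ 10 := by
        field_simp
    _ = C * Real.exp ((c + w) / 2) / Y ^ 10 := by
        rw [← Real.exp_add]
        congr 3
        ring

/-- the size of the kernel -/
lemma Kn_norm {β : ℝ → ℝ} {k : ℝ → ℂ} {C : ℝ} (hB : Bump β k C) {ε L c w : ℝ} (hε : 0 < ε)
    (hε1 : ε ≤ 1) (hL : 0 < L) (hw1 : ε * L ≤ w) (hw2 : w ≤ L) (v : ℝ) :
    ‖Kn k c w v‖ ≤ C / ε ^ 8 * L / (1 + L * |v|) ^ 8 := by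
  have hC := hB.Cp
  have hw0 : 0 < w := lt_of_lt_of_le (by positivity) hw1
  have hv := abs_nonneg v
  unfold Kn
  have h2 : ‖cexp (I * c * v)‖ = 1 := by
    have e : I * (c : ℂ) * (v : ℂ) = ((c * v : ℝ) : ℂ) * I := by
      push_cast
      ring
    rw [e, Complex.norm_exp_ofReal_mul_I]
  rw [norm_mul, norm_mul, h2, mul_one, Complex.norm_real, Real.norm_of_nonneg hw0.le]
  have h1 := hB.kbd (w * v)
  rw [abs_mul, abs_of_pos hw0] at h1
  have h3 : ε * (1 + L * |v|) ≤ 1 + w * |v| := by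
    have : ε * L * |v| ≤ w * |v| := mul_le_mul_of_nonneg_right hw1 hv
    linarith
  have h4 : ε ^ 8 * (1 + L * |v|) ^ 8 ≤ (1 + w * |v|) ^ 10 := by
    have h5 : 1 ≤ 1 + w * |v| := by
      have : 0 ≤ w * |v| := by positivity
      linarith
    calc ε ^ 8 * (1 + L * |v|) ^ 8 = (ε * (1 + L * |v|)) ^ 8 := by rw [mul_pow]
      _ ≤ (1 + w * |v|) ^ 8 := pow_le_pow_left₀ (by positivity) h3 8
      _ ≤ (1 + w * |v|) ^ 10 := pow_le_pow_right₀ h5 (by norm_num)
  have hp : 0 < 1 + L * |v| := by positivity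
  calc w * ‖k (w * v)‖ ≤ L * (C / (1 + w * |v|) ^ 10) :=
        mul_le_mul hw2 h1 (norm_nonneg _) hL.le
    _ ≤ L * (C / (ε ^ 8 * (1 + L * |v|) ^ 8)) := by
        apply mul_le_mul_of_nonneg_left _ hL.le
        apply div_le_div_of_nonneg_left hC.le (by positivity) h4
    _ = C / ε ^ 8 * L / (1 + L * |v|) ^ 8 := by
        field_simp

lemma Kn_cont {β : ℝ → ℝ} {k : ℝ → ℂ} {C : ℝ} (hB : Bump β k C) (c w : ℝ) :
    Continuous (Kn k c w) := by
  unfold Kn
  have hk := hB.kcont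
  fun_prop

end

end Pool.Agent.H249.HD
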